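import Pool.Agent.Helper61.HR.SetA

/-!
# Module SET of `MP_8b22ef_co`
-/

namespace Pool.Agent.Helper61.HR

open Finset Pool.Agent.Helper39.HR
open scoped Classical

noncomputable section

/-- `min ^ 2` is at least `b b' / 2 - (b - b')^2 / 8` -/
theorem min_sq (a b : ℝ) : a * b / 2 - (a - b) ^ 2 / 8 ≤ min a b ^ 2 := by
  rcases le_total a b with h | h
  · rw [min_eq_left h]; nlinarith [sq_nonneg (a - (b - a) / 2)]
  · rw [min_eq_right h]; nlinarith [sq_nonneg (b - (a - b) / 2)]

variable {V : Type} [Fintype V]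

/-- weight off the middle -/
def cb (g b : V → ℝ) (x : V) : ℝ := if 1 / 4 ≤ g x ∧ g x ≤ 3 / 4 then 0 else b x ^ 2

omit [Fintype V] in
theorem cb_nn (g b : V → ℝ) (x : V) : 0 ≤ cb g b x := by
  unfold cb; split_ifs <;> positivity

/-- pointwise loss -/
theorem point {ω : V → V → ℝ} {μ : V → ℝ} (hK : Ker ω μ) (g b : V → ℝ) (hb : ∀ x, 0 ≤ b x)
    (q : ℝ) (x y : V) :
    ω x y * min (b x) (b y) ^ 2 ≤ (if good μ g b q x y then ω x y * min (b x) (b y) ^ 2 else 0)
      + ω x y * cb g b x + ω x y * cb g b y + ω x y * (b x - b y) ^ 2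
      + (if q * μ y < μ x then ω x y else 0) * b x ^ 2
      + (if q * μ x < μ y then ω x y else 0) * b y ^ 2 := by
  have hω := hK.nn x y
  have n1 : 0 ≤ ω x y * cb g b x := mul_nonneg hω (cb_nn g b x)
  have n2 : 0 ≤ ω x y * cb g b y := mul_nonneg hω (cb_nn g b y)
  have n3 : 0 ≤ ω x y * (b x - b y) ^ 2 := by positivity
  have n4 : 0 ≤ (if q * μ y < μ x then ω x y else 0) * b x ^ 2 := by
    apply mul_nonneg _ (sq_nonneg _); split_ifs <;> [exact hω; exact le_refl _]
  have n5 : 0 ≤ (if q * μ x < μ y then ω x y else 0) * b y ^ 2 := by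
    apply mul_nonneg _ (sq_nonneg _); split_ifs <;> [exact hω; exact le_refl _]
  have m0 : 0 ≤ min (b x) (b y) := le_min (hb x) (hb y)
  have mx : min (b x) (b y) ^ 2 ≤ b x ^ 2 := by
    have := min_le_left (b x) (b y); gcongr
  have my : min (b x) (b y) ^ 2 ≤ b y ^ 2 := by
    have := min_le_right (b x) (b y); gcongr
  have n6 : 0 ≤ (if good μ g b q x y then ω x y * min (b x) (b y) ^ 2 else 0) := by
    split_ifs <;> positivity
  by_cases h : good μ g b q x y
  · rw [if_pos h]; linarith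
  · by_cases h1 : 0 < μ x
    swap
    · have := ker_zero hK (not_lt.1 h1) y
      simp [this]
    by_cases h2 : 0 < μ y
    swap
    · have := ker_zero hK (not_lt.1 h2) x
      rw [hK.symm] at this
      simp [this]
    by_cases h3 : 0 < b x
    swap
    · have h0 : b x = 0 := le_antisymm (not_lt.1 h3) (hb x)
      have : min (b x) (b y) = 0 := by rw [h0]; exact min_eq_left (hb y)
      rw [this] at n6 ⊢
      have h7 : ω x y * (0 : ℝ) ^ 2 = 0 := by ring
      rw [h7] at n6 ⊢
      linarith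
    by_cases h4 : 0 < b y
    swap
    · have h0 : b y = 0 := le_antisymm (not_lt.1 h4) (hb y)
      have : min (b x) (b y) = 0 := by rw [h0]; exact min_eq_right (hb x)
      rw [this] at n6 ⊢
      have h7 : ω x y * (0 : ℝ) ^ 2 = 0 := by ring
      rw [h7] at n6 ⊢
      linarith
    by_cases h5 : 1 / 4 ≤ g x ∧ g x ≤ 3 / 4
    swap
    · have : cb g b x = b x ^ 2 := by unfold cb; rw [if_neg h5]
      rw [this] at n1 ⊢
      have := mul_le_mul_of_nonneg_left mx hω
      linarith
    by_cases h6 : 1 / 4 ≤ g y ∧ g y ≤ 3 / 4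
    swap
    · have : cb g b y = b y ^ 2 := by unfold cb; rw [if_neg h6]
      rw [this] at n2 ⊢
      have := mul_le_mul_of_nonneg_left my hω
      linarith
    by_cases h7 : b x ≤ 2 * b y
    swap
    · push Not at h7
      have : min (b x) (b y) ^ 2 ≤ (b x - b y) ^ 2 := by
        refine le_trans my ?_
        nlinarith
      have := mul_le_mul_of_nonneg_left this hω
      linarith
    by_cases h8 : b y ≤ 2 * b x
    swap
    · push Not at h8
      have : min (b x) (b y) ^ 2 ≤ (b x - b y) ^ 2 := by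
        refine le_trans mx ?_
        nlinarith
      have := mul_le_mul_of_nonneg_left this hω
      linarith
    by_cases h9 : μ x ≤ q * μ y
    swap
    · push Not at h9
      rw [if_pos h9] at n4 ⊢
      have := mul_le_mul_of_nonneg_left mx hω
      linarith
    by_cases h10 : μ y ≤ q * μ x
    swap
    · push Not at h10
      rw [if_pos h10] at n5 ⊢
      have := mul_le_mul_of_nonneg_left my hω
      linarith
    exact absurd ⟨h1, h2, h3, h4, h5, h6, h7, h8, h9, h10⟩ h

/-- total loss -/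
theorem total {ω : V → V → ℝ} {μ : V → ℝ} (hK : Ker ω μ) (g b : V → ℝ) (hb : ∀ x, 0 ≤ b x)
    (q : ℝ) (hq : ∀ x, ∑ y ∈ univ.filter (fun y => q * μ y < μ x), ω x y ≤ μ x / 100) :
    ∑ x, ∑ y, ω x y * min (b x) (b y) ^ 2
      ≤ ∑ x, ∑ y, (if good μ g b q x y then ω x y * min (b x) (b y) ^ 2 else 0)
        + 2 * ∑ x, μ x * cb g b x + ∑ x, ∑ y, ω x y * (b x - b y) ^ 2
        + 2 * ((∑ x, μ x * b x ^ 2) / 100) := by
  have h1 := sum_le_sum (fun x (_ : x ∈ (univ : Finset V)) =>
    sum_le_sum (fun y (_ : y ∈ (univ : Finset V)) => point hK g b hb q x y))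
  simp only [sum_add_distrib] at h1
  have h2 := sum_left hK (cb g b) (cb_nn g b)
  have h3 := sum_right hK (cb g b) (cb_nn g b)
  have h4 : ∑ x, ∑ y, (if q * μ y < μ x then ω x y else 0) * b x ^ 2
      ≤ (∑ x, μ x * b x ^ 2) / 100 := by
    rw [sum_div]
    apply sum_le_sum
    intro x _
    rw [← sum_mul, ← sum_filter]
    have := mul_le_mul_of_nonneg_right (hq x) (sq_nonneg (b x))
    calc _ ≤ μ x / 100 * b x ^ 2 := this
      _ = μ x * b x ^ 2 / 100 := by ring
  have h5 : ∑ x, ∑ y, (if q * μ x < μ y then ω x y else 0) * b y ^ 2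
      = ∑ x, ∑ y, (if q * μ y < μ x then ω x y else 0) * b x ^ 2 := by
    rw [sum_comm]
    apply sum_congr rfl
    intro x _
    apply sum_congr rfl
    intro y _
    rw [hK.symm y x]
  rw [h5] at h1
  linarith

theorem fl_le_ms {ω : V → V → ℝ} {μ : V → ℝ} (hK : Ker ω μ) (A : Finset V) :
    fl ω A A ≤ ms μ A := by
  unfold fl ms
  apply sum_le_sum
  intro x _
  refine le_trans ?_ (hK.row x)
  exact sum_le_sum_of_subset_of_nonneg (subset_univ _) (fun y _ _ => hK.nn x y)

theorem st_set : ST_SET := by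
  refine ⟨1 / 10000, by norm_num, by norm_num, ?_⟩
  intro V _ ω μ g h q hK g0 g1 h0 hs hv hQ hq hr
  have hμ : ∀ x, 0 ≤ μ x := fun x => ker_mu hK x
  have hbd : ∃ b : V → ℝ, b = fun x => g x * h x := ⟨_, rfl⟩
  obtain ⟨b, hbd⟩ := hbd
  have hb : ∀ x, 0 ≤ b x := by
    intro x; rw [hbd]; exact mul_nonneg (g0 x) (h0 x)
  rw [← hbd] at hQ
  have hν : ∀ x, 0 ≤ μ x * g x * h x ^ 2 := by
    intro x
    have := hμ x; have := g0 x
    positivity
  -- the energy
  have hE : ∑ x, μ x * b x ^ 2 ≤ 51 / 100 := by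
    have h1 : ∀ x ∈ (univ : Finset V), μ x * b x ^ 2 ≤ (1 / 2) * (μ x * g x * h x ^ 2)
        + (1 / 2) * (100 * (μ x * g x * h x ^ 2 * (g x - 1 / 2) ^ 2)
          + (1 / 100) * (μ x * g x * h x ^ 2)) := by
      intro x _
      have e1 : μ x * b x ^ 2 = (μ x * g x * h x ^ 2) * g x := by rw [hbd]; ring
      rw [e1]
      have e2 : g x ≤ 1 / 2 + 1 / 2 * (100 * (g x - 1 / 2) ^ 2 + 1 / 100) := by
        nlinarith [sq_nonneg (10 * (g x - 1 / 2) - 1 / 10)]
      calc _ ≤ (μ x * g x * h x ^ 2) * (1 / 2 + 1 / 2 * (100 * (g x - 1 / 2) ^ 2 + 1 / 100)) :=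
            mul_le_mul_of_nonneg_left e2 (hν x)
        _ = _ := by ring
    have h2 := sum_le_sum h1
    rw [sum_add_distrib, ← mul_sum, ← mul_sum, sum_add_distrib, ← mul_sum, ← mul_sum, hs] at h2
    linarith
  -- weight off the middle
  have hC : ∑ x, μ x * cb g b x ≤ 16 / 10000 := by
    have h1 : ∀ x ∈ (univ : Finset V), μ x * cb g b x
        ≤ 16 * (μ x * g x * h x ^ 2 * (g x - 1 / 2) ^ 2) := by
      intro x _
      have hn := hν x
      unfold cb
      split_ifs with h3
      · rw [mul_zero]; positivity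
      · have e1 : μ x * b x ^ 2 = (μ x * g x * h x ^ 2) * g x := by rw [hbd]; ring
        rw [e1]
        have e2 : g x ≤ 16 * (g x - 1 / 2) ^ 2 := by
          have := g1 x; have := g0 x
          rw [not_and_or] at h3
          push Not at h3
          rcases h3 with h3 | h3
          · nlinarith
          · nlinarith
        calc _ ≤ (μ x * g x * h x ^ 2) * (16 * (g x - 1 / 2) ^ 2) :=
              mul_le_mul_of_nonneg_left e2 hn
          _ = _ := by ring
    have h2 := sum_le_sum h1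
    rw [← mul_sum] at h2
    linarith
  -- the Dirichlet form
  have hD : ∑ x, ∑ y, ω x y * (b x - b y) ^ 2 ≤ 202 / 10000 := by
    have h1 : ∑ x, ∑ y, ω x y * (b x - b y) ^ 2
        = ∑ x, ∑ y, ω x y * b x ^ 2 + ∑ x, ∑ y, ω x y * b y ^ 2 - 2 * qf ω b := by
      unfold qf
      rw [mul_sum, ← sum_add_distrib, ← sum_sub_distrib]
      apply sum_congr rfl
      intro x _
      rw [mul_sum, ← sum_add_distrib, ← sum_sub_distrib]
      apply sum_congr rfl
      intro y _
      ring
    have h2 := sum_left hK (fun x => b x ^ 2) (fun x => sq_nonneg _)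
    have h3 := sum_right hK (fun x => b x ^ 2) (fun x => sq_nonneg _)
    rw [h1]
    linarith
  -- the minimum
  have hM : qf ω b / 2 - (∑ x, ∑ y, ω x y * (b x - b y) ^ 2) / 8
      ≤ ∑ x, ∑ y, ω x y * min (b x) (b y) ^ 2 := by
    unfold qf
    rw [sum_div, sum_div, ← sum_sub_distrib]
    apply sum_le_sum
    intro x _
    rw [sum_div, sum_div, ← sum_sub_distrib]
    apply sum_le_sum
    intro y _
    calc _ = ω x y * (b x * b y / 2 - (b x - b y) ^ 2 / 8) := by ring
      _ ≤ _ := mul_le_mul_of_nonneg_left (min_sq _ _) (hK.nn x y)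
  have hT := total hK g b hb q hr
  have hF := flow_classes hK.nn μ g b hq
  have hMC := mass_classes μ g b q hμ
  -- pigeonhole
  by_contra hcon
  have hall : ∀ p : ℤ × ℤ, 30 * fl ω (cls μ g b q p) (cls μ g b q p) ≤ ms μ (cls μ g b q p) := by
    intro p
    by_contra h1
    push Not at h1
    have h2 : 0 < ms μ (cls μ g b q p) := by
      have h3 := fl_le_ms hK (cls μ g b q p)
      have h4 : 0 ≤ ms μ (cls μ g b q p) := sum_nonneg (fun x _ => hμ x)
      rcases h4.lt_or_eq with h5 | h5
      · exact h5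
      · exfalso; linarith
    apply hcon
    refine ⟨cls μ g b q p, h2, ?_, ?_, ?_, h1.le⟩
    · intro x hx
      unfold cls at hx
      rw [mem_filter] at hx
      exact hx.2.1
    · intro x hx
      unfold cls at hx
      rw [mem_filter] at hx
      exact hx.2.2.2.1
    · intro x hx y hy
      unfold cls at hx hy
      rw [mem_filter] at hx hy
      have hq0 : 0 < q := by linarith
      have e1 := (lt_lev hq hx.2.1).le
      have e2 := lev_le hq hy.2.1
      have e3 : q ^ (lev q (μ x) + 1) ≤ q ^ (p.2 + 2) := by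
        apply zpow_le_zpow_right₀ hq.le
        have := hx.2.2.2.2.2
        omega
      have e4 : q ^ p.2 ≤ q ^ lev q (μ y) := by
        apply zpow_le_zpow_right₀ hq.le
        have := hy.2.2.2.2.2
        omega
      calc μ x ≤ q ^ (lev q (μ x) + 1) := e1
        _ ≤ q ^ (p.2 + 2) := e3
        _ = q ^ 2 * q ^ p.2 := by
            rw [zpow_add₀ hq0.ne', mul_comm]
            norm_cast
        _ ≤ q ^ 2 * μ y := by
            have := le_trans e4 e2
            gcongr
  have hsum : 30 * ∑ p ∈ idx μ b q, (4 : ℝ) ^ (p.1 + 1) * fl ω (cls μ g b q p) (cls μ g b q p)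
      ≤ ∑ p ∈ idx μ b q, (4 : ℝ) ^ (p.1 + 1) * ms μ (cls μ g b q p) := by
    rw [mul_sum]
    apply sum_le_sum
    intro p _
    have h0 : (0 : ℝ) ≤ 4 ^ (p.1 + 1) := by positivity
    have := mul_le_mul_of_nonneg_left (hall p) h0
    linarith
  linarith

end

end Pool.Agent.Helper61.HR
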