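import Pool.Agent.Helper39.HR.Stmts

/-!
# Dyadic levels and the sums over classes (module SET of `MP_8b22ef_co`)
-/

namespace Pool.Agent.Helper61.HR

open Finset Pool.Agent.Helper39.HR
open scoped Classical

noncomputable section

/-- the level of `t` in base `q` -/
def lev (q t : ℝ) : ℤ :=
  if h : 0 < t ∧ 1 < q then (exists_mem_Ico_zpow h.1 h.2).choose else 0

theorem lev_le {q t : ℝ} (hq : 1 < q) (ht : 0 < t) : q ^ lev q t ≤ t := by
  unfold lev
  rw [dif_pos ⟨ht, hq⟩]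
  exact (exists_mem_Ico_zpow ht hq).choose_spec.1

theorem lt_lev {q t : ℝ} (hq : 1 < q) (ht : 0 < t) : t < q ^ (lev q t + 1) := by
  unfold lev
  rw [dif_pos ⟨ht, hq⟩]
  exact (exists_mem_Ico_zpow ht hq).choose_spec.2

theorem lev_near {q s t : ℝ} (hq : 1 < q) (hs : 0 < s) (ht : 0 < t) (h : s ≤ q * t) :
    lev q s ≤ lev q t + 1 := by
  have h1 := lev_le hq hs
  have h2 := lt_lev hq ht
  have hq0 : 0 < q := by linarith
  have h3 : q ^ lev q s < q ^ (lev q t + 2) := by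
    calc q ^ lev q s ≤ s := h1
      _ ≤ q * t := h
      _ < q * q ^ (lev q t + 1) := by gcongr
      _ = q ^ (lev q t + 2) := by
          rw [← zpow_one_add₀ hq0.ne']
          ring_nf
  have h4 := (zpow_lt_zpow_iff_right₀ hq).1 h3
  omega

/-- sum over the two classes of an element -/
theorem two_classes (J : Finset ℤ) (a : ℤ) (f : ℤ → ℝ) (hf : ∀ j, 0 ≤ f j) :
    ∑ j ∈ J, (if a = j ∨ a = j + 1 then f j else 0) ≤ f a + f (a - 1) := by
  rw [← Finset.sum_filter]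
  have h1 : J.filter (fun j => a = j ∨ a = j + 1) ⊆ {a, a - 1} := by
    intro j hj
    rw [mem_filter] at hj
    rw [mem_insert, mem_singleton]
    rcases hj.2 with h | h
    · left; omega
    · right; omega
  calc ∑ j ∈ J.filter (fun j => a = j ∨ a = j + 1), f j
      ≤ ∑ j ∈ ({a, a - 1} : Finset ℤ), f j :=
        sum_le_sum_of_subset_of_nonneg h1 (fun i _ _ => hf i)
    _ = f a + f (a - 1) := by
        rw [sum_pair]
        omega

variable {V : Type} [Fintype V]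

theorem ker_zero {ω : V → V → ℝ} {μ : V → ℝ} (hK : Ker ω μ) {x : V} (hx : μ x ≤ 0) (y : V) :
    ω x y = 0 := by
  have h1 : ω x y ≤ ∑ z, ω x z := single_le_sum (f := fun z => ω x z) (fun z _ => hK.nn x z)
    (mem_univ y)
  have h2 := hK.row x
  have h3 := hK.nn x y
  linarith

theorem ker_mu {ω : V → V → ℝ} {μ : V → ℝ} (hK : Ker ω μ) (x : V) : 0 ≤ μ x :=
  le_trans (sum_nonneg (fun y _ => hK.nn x y)) (hK.row x)

theorem sum_left {ω : V → V → ℝ} {μ : V → ℝ} (hK : Ker ω μ) (c : V → ℝ) (hc : ∀ x, 0 ≤ c x) :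
    ∑ x, ∑ y, ω x y * c x ≤ ∑ x, μ x * c x := by
  apply sum_le_sum
  intro x _
  rw [← sum_mul]
  exact mul_le_mul_of_nonneg_right (hK.row x) (hc x)

theorem sum_swap {ω : V → V → ℝ} {μ : V → ℝ} (hK : Ker ω μ) (F : V → V → ℝ) :
    ∑ x, ∑ y, ω x y * F y x = ∑ x, ∑ y, ω x y * F x y := by
  rw [sum_comm]
  apply sum_congr rfl
  intro x _
  apply sum_congr rfl
  intro y _
  rw [hK.symm y x]

theorem sum_right {ω : V → V → ℝ} {μ : V → ℝ} (hK : Ker ω μ) (c : V → ℝ) (hc : ∀ x, 0 ≤ c x) :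
    ∑ x, ∑ y, ω x y * c y ≤ ∑ x, μ x * c x := by
  rw [sum_swap hK (fun x _ => c x)]
  exact sum_left hK c hc

/-- the classes -/
def cls (μ g b : V → ℝ) (q : ℝ) (p : ℤ × ℤ) : Finset V :=
  univ.filter (fun x => 0 < μ x ∧ 0 < b x ∧ (1 / 4 ≤ g x ∧ g x ≤ 3 / 4) ∧
    (lev 2 (b x) = p.1 ∨ lev 2 (b x) = p.1 + 1) ∧ (lev q (μ x) = p.2 ∨ lev q (μ x) = p.2 + 1))

/-- the index set -/
def idx (μ b : V → ℝ) (q : ℝ) : Finset (ℤ × ℤ) :=
  (univ.image (fun x => lev 2 (b x))) ×ˢ (univ.image (fun x => lev q (μ x)))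

/-- total mass of the classes -/
theorem mass_classes (μ g b : V → ℝ) (q : ℝ) (hμ : ∀ x, 0 ≤ μ x) :
    ∑ p ∈ idx μ b q, (4 : ℝ) ^ (p.1 + 1) * ms μ (cls μ g b q p) ≤ 10 * ∑ x, μ x * b x ^ 2 := by
  have h1 : ∀ p : ℤ × ℤ, (4 : ℝ) ^ (p.1 + 1) * ms μ (cls μ g b q p)
      = ∑ x, (if x ∈ cls μ g b q p then (4 : ℝ) ^ (p.1 + 1) * μ x else 0) := by
    intro p
    unfold ms
    rw [mul_sum, ← sum_filter]
    apply sum_congr _ (fun _ _ => rfl)
    ext x
    simp
  rw [sum_congr rfl (fun p _ => h1 p), sum_comm, mul_sum]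
  apply sum_le_sum
  intro x _
  by_cases hb : 0 < b x
  · have h2 : ∀ p ∈ idx μ b q, (if x ∈ cls μ g b q p then (4 : ℝ) ^ (p.1 + 1) * μ x else 0)
        ≤ (if lev 2 (b x) = p.1 ∨ lev 2 (b x) = p.1 + 1 then (4 : ℝ) ^ (p.1 + 1) else 0)
          * ((if lev q (μ x) = p.2 ∨ lev q (μ x) = p.2 + 1 then (1 : ℝ) else 0) * μ x) := by
      intro p _
      by_cases hx : x ∈ cls μ g b q p
      · have hx' := hx
        unfold cls at hx'
        rw [mem_filter] at hx'
        rw [if_pos hx, if_pos hx'.2.2.2.2.1, if_pos hx'.2.2.2.2.2, one_mul]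
      · rw [if_neg hx]
        apply mul_nonneg
        · split_ifs <;> positivity
        · apply mul_nonneg _ (hμ x)
          split_ifs <;> norm_num
    refine le_trans (sum_le_sum h2) ?_
    unfold idx
    rw [sum_product]
    have h3 : ∀ j : ℤ, ∑ k ∈ univ.image (fun x => lev q (μ x)),
        (if lev 2 (b x) = j ∨ lev 2 (b x) = j + 1 then (4 : ℝ) ^ (j + 1) else 0)
          * ((if lev q (μ x) = k ∨ lev q (μ x) = k + 1 then (1 : ℝ) else 0) * μ x)
        ≤ (if lev 2 (b x) = j ∨ lev 2 (b x) = j + 1 then (4 : ℝ) ^ (j + 1) else 0) * (2 * μ x) := by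
      intro j
      rw [← mul_sum, ← sum_mul]
      apply mul_le_mul_of_nonneg_left _ (by split_ifs <;> positivity)
      apply mul_le_mul_of_nonneg_right _ (hμ x)
      have := two_classes (univ.image (fun x => lev q (μ x))) (lev q (μ x)) (fun _ => 1)
        (fun _ => by norm_num)
      norm_num at this ⊢
      linarith
    refine le_trans (sum_le_sum (fun j _ => h3 j)) ?_
    rw [← sum_mul]
    have h4 := two_classes (univ.image (fun x => lev 2 (b x))) (lev 2 (b x))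
      (fun j => (4 : ℝ) ^ (j + 1)) (fun j => by positivity)
    have h5 := lev_le (q := 2) (by norm_num) hb
    have h6 : (4 : ℝ) ^ lev 2 (b x) ≤ b x ^ 2 := by
      have : (4 : ℝ) ^ lev 2 (b x) = ((2 : ℝ) ^ lev 2 (b x)) ^ 2 := by
        rw [← zpow_natCast, ← zpow_mul, mul_comm, zpow_mul]
        norm_num
      rw [this]
      have h0 : (0 : ℝ) < 2 ^ lev 2 (b x) := by positivity
      gcongr
    have h7 : (4 : ℝ) ^ (lev 2 (b x) + 1) = 4 * 4 ^ lev 2 (b x) := by
      rw [zpow_add₀ (by norm_num)]; norm_num; ring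
    have h8 : (4 : ℝ) ^ (lev 2 (b x) - 1 + 1) = 4 ^ lev 2 (b x) := by
      congr 1; ring
    simp only [h7, h8] at h4
    have h9 : 0 ≤ 2 * μ x := by have := hμ x; positivity
    calc _ ≤ (4 * 4 ^ lev 2 (b x) + 4 ^ lev 2 (b x)) * (2 * μ x) :=
          mul_le_mul_of_nonneg_right h4 h9
      _ ≤ (4 * b x ^ 2 + b x ^ 2) * (2 * μ x) := by gcongr
      _ = 10 * (μ x * b x ^ 2) := by ring
  · have h2 : ∀ p ∈ idx μ b q,
        (if x ∈ cls μ g b q p then (4 : ℝ) ^ (p.1 + 1) * μ x else 0) = 0 := by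
      intro p _
      rw [if_neg]
      unfold cls
      rw [mem_filter]
      tauto
    rw [sum_congr rfl h2, sum_const_zero]
    have := hμ x
    positivity

/-- a good pair -/
def good (μ g b : V → ℝ) (q : ℝ) (x y : V) : Prop :=
  0 < μ x ∧ 0 < μ y ∧ 0 < b x ∧ 0 < b y ∧ (1 / 4 ≤ g x ∧ g x ≤ 3 / 4) ∧
    (1 / 4 ≤ g y ∧ g y ≤ 3 / 4) ∧ b x ≤ 2 * b y ∧ b y ≤ 2 * b x ∧ μ x ≤ q * μ y ∧ μ y ≤ q * μ x

/-- a good pair lies in a class, whose factor is at least `min ^ 2` -/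
theorem good_class {μ g b : V → ℝ} {q : ℝ} (hq : 1 < q) {x y : V} (h : good μ g b q x y) :
    ∃ p ∈ idx μ b q, x ∈ cls μ g b q p ∧ y ∈ cls μ g b q p ∧
      min (b x) (b y) ^ 2 ≤ (4 : ℝ) ^ (p.1 + 1) := by
  obtain ⟨h1, h2, h3, h4, h5, h6, h7, h8, h9, h10⟩ := h
  have j1 := lev_near (q := 2) (by norm_num) h3 h4 h7
  have j2 := lev_near (q := 2) (by norm_num) h4 h3 h8
  have k1 := lev_near hq h1 h2 h9
  have k2 := lev_near hq h2 h1 h10
  refine ⟨(min (lev 2 (b x)) (lev 2 (b y)), min (lev q (μ x)) (lev q (μ y))), ?_, ?_, ?_, ?_⟩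
  · unfold idx
    rw [mem_product]
    constructor
    · rcases min_choice (lev 2 (b x)) (lev 2 (b y)) with h | h <;> simp only [h] <;>
        exact mem_image_of_mem (fun x => lev 2 (b x)) (mem_univ _)
    · rcases min_choice (lev q (μ x)) (lev q (μ y)) with h | h <;> simp only [h] <;>
        exact mem_image_of_mem (fun x => lev q (μ x)) (mem_univ _)
  · unfold cls
    rw [mem_filter]
    refine ⟨mem_univ _, h1, h3, h5, ?_, ?_⟩ <;> simp only <;> omega
  · unfold cls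
    rw [mem_filter]
    refine ⟨mem_univ _, h2, h4, h6, ?_, ?_⟩ <;> simp only <;> omega
  · simp only
    have e1 := lt_lev (q := 2) (by norm_num) h3
    have e2 := lt_lev (q := 2) (by norm_num) h4
    have e3 : min (b x) (b y) ≤ (2 : ℝ) ^ (min (lev 2 (b x)) (lev 2 (b y)) + 1) := by
      rcases min_choice (lev 2 (b x)) (lev 2 (b y)) with h | h <;> rw [h]
      · exact le_trans (min_le_left _ _) e1.le
      · exact le_trans (min_le_right _ _) e2.le
    have e4 : (4 : ℝ) ^ (min (lev 2 (b x)) (lev 2 (b y)) + 1)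
        = ((2 : ℝ) ^ (min (lev 2 (b x)) (lev 2 (b y)) + 1)) ^ 2 := by
      rw [← zpow_natCast, ← zpow_mul, mul_comm, zpow_mul]
      norm_num
    rw [e4]
    have e5 : 0 ≤ min (b x) (b y) := le_min h3.le h4.le
    gcongr

/-- the flow of the classes -/
theorem flow_classes {ω : V → V → ℝ} (hω : ∀ x y, 0 ≤ ω x y) (μ g b : V → ℝ) {q : ℝ}
    (hq : 1 < q) :
    ∑ x, ∑ y, (if good μ g b q x y then ω x y * min (b x) (b y) ^ 2 else 0)
      ≤ ∑ p ∈ idx μ b q, (4 : ℝ) ^ (p.1 + 1) * fl ω (cls μ g b q p) (cls μ g b q p) := by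
  have h1 : ∀ p : ℤ × ℤ, (4 : ℝ) ^ (p.1 + 1) * fl ω (cls μ g b q p) (cls μ g b q p)
      = ∑ x, ∑ y, (if x ∈ cls μ g b q p ∧ y ∈ cls μ g b q p then
          (4 : ℝ) ^ (p.1 + 1) * ω x y else 0) := by
    intro p
    unfold fl
    rw [mul_sum]
    have h2 : ∀ x, ∑ y, (if x ∈ cls μ g b q p ∧ y ∈ cls μ g b q p then
          (4 : ℝ) ^ (p.1 + 1) * ω x y else 0)
        = if x ∈ cls μ g b q p then ∑ y ∈ cls μ g b q p, (4 : ℝ) ^ (p.1 + 1) * ω x y else 0 := by
      intro x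
      by_cases hx : x ∈ cls μ g b q p
      · simp only [hx, true_and, if_true]
        rw [← sum_filter]
        apply sum_congr _ (fun _ _ => rfl)
        ext y
        simp
      · simp [hx]
    rw [sum_congr rfl (fun x _ => h2 x), ← sum_filter]
    have h3 : univ.filter (fun x => x ∈ cls μ g b q p) = cls μ g b q p := by
      ext x; simp
    rw [h3]
    apply sum_congr rfl
    intro x _
    rw [mul_sum]
  rw [sum_congr rfl (fun p _ => h1 p), sum_comm (s := idx μ b q)]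
  apply sum_le_sum
  intro x _
  rw [sum_comm (s := idx μ b q)]
  apply sum_le_sum
  intro y _
  have hnn : ∀ p ∈ idx μ b q, 0 ≤ (if x ∈ cls μ g b q p ∧ y ∈ cls μ g b q p then
          (4 : ℝ) ^ (p.1 + 1) * ω x y else 0) := by
    intro p _
    have := hω x y
    split_ifs <;> positivity
  by_cases h : good μ g b q x y
  · rw [if_pos h]
    obtain ⟨p, hp, hx, hy, hm⟩ := good_class hq h
    refine le_trans ?_ (single_le_sum hnn hp)
    rw [if_pos ⟨hx, hy⟩, mul_comm]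
    exact mul_le_mul_of_nonneg_right hm (hω x y)
  · rw [if_neg h]
    exact sum_nonneg hnn

end

end Pool.Agent.Helper61.HR
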